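import Pool.Agent.J4.H35.EvC

/-!
# Large prime gaps at the members of, and in, every residue class of every modulus `d ≤ x ^ (1 - δ)`

Shanks' question is where the first gap of a given length between consecutive primes occurs. Here gaps of
length `c log x log log x` are found in every interval of length `x`, around a member of a prescribed
residue class, and in (the primes of) a prescribed residue class, uniformly for ALL moduli
`d ≤ x ^ (1 - δ)`, ALL residue classes and all intervals: for all large `x`,

1. every interval `(z, z + x]`, `z ≥ 0`, contains a member `n` of the residue class `a (mod d)` such that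
   there is no prime within `c log x log log x` of `n`;
2. every interval `(z, z + x]`, `z ≥ 0`, contains an interval of length `c φ(d) log x log log x` without
   primes of the residue class `a (mod d)`.

The mean distance of the primes `q ≡ a (mod d)` near `x` is `φ(d) log x`, for `a` coprime to `d`; so the gap
in 2. exceeds it by the factor `c log log x`, which is more than the classical factor
`log log x log log log log x / (log log log x) ^ 2` of Rankin. (Remark, not formalised: it follows that the
first stretch of `g` consecutive members of the residue class without a prime occurs before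
`exp (C g d / (φ(d) log g))`, if this number exceeds `d ^ (1 / (1 - δ))`.)

The starting files `ProgressionGaps` and `RecordGapsAtPrescribedPlaces` (MP_3bc45c_nt) have the lengths
`c φ(d) f(x)` in 2. and `c (φ(d) / d) f(x)` in 1., `f(x) = log x (log₂ x)² log₄ x / (log₃ x)²`, for the moduli
`d` with few prime factors of a certain size below `log x`. Without such a restriction: if `d` is divisible by all the small primes, then the classes
modulo these primes are prescribed in 1., while no class modulo them can be used in 2., and the choice of the
classes in the method of Erdős and Rankin is no longer possible. The worst case is a modulus `d` divisible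
by all the primes up to `log x`. For such `d` the integers of an interval `(n - L, n + L)` left over by the primes up to `log x`
number up to a constant times `L / log log x`, and the covering theorem `coveringG` of `TH915/PW`
(starting files), which is applied with primes between `(log x) ^ 2` and a power of `x`, not dividing `d`,
eliminates `c log x` integers.
-/

set_option autoImplicit false

namespace Pool.Agent.Results.MP_926cc3_nt.EveryModulus

/-- `log x log log x` -/
noncomputable def loglog (x : ℝ) : ℝ := Real.log x * Real.log (Real.log x)

/-- **Large prime gaps at, and in, every residue class.** Let `0 < δ ≤ 1`. There are `c > 0` and `x₀` such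
that for all `x ≥ x₀`, all moduli `1 ≤ d ≤ x ^ (1 - δ)`, all integers `a` and all `z ≥ 0`:
(1) there is an integer `n ≡ a (mod d)`, `z < n ≤ z + x`, such that `|q - n| > c log x log log x` for all
primes `q`;
(2) there is an integer `u > z` with `u + c φ(d) log x log log x ≤ z + x` such that there is no prime
`q ≡ a (mod d)` with `u < q ≤ u + c φ(d) log x log log x`. -/
theorem result (δ : ℝ) (hδ : 0 < δ) (hδ1 : δ ≤ 1) : ∃ c : ℝ, 0 < c ∧ ∃ x₀ : ℝ, ∀ x : ℝ, x₀ ≤ x →
    ∀ d : ℕ, 1 ≤ d → (d : ℝ) ≤ x ^ (1 - δ) → ∀ (a : ℤ) (z : ℝ), 0 ≤ z →
    (∃ n : ℤ, z < n ∧ (n : ℝ) ≤ z + x ∧ n ≡ a [ZMOD d] ∧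
      ∀ q : ℕ, q.Prime → c * loglog x < |(q : ℝ) - n|) ∧
    (∃ u : ℤ, z < u ∧ (u : ℝ) + c * (d.totient * loglog x) ≤ z + x ∧
      ∀ q : ℕ, q.Prime → (q : ℤ) ≡ a [ZMOD d] →
        ¬ ((u : ℝ) < q ∧ (q : ℝ) ≤ u + c * (d.totient * loglog x))) := by
  obtain ⟨c, hc, x₀, h⟩ := Pool.Agent.J4.H35.Ev.main δ hδ hδ1
  refine ⟨c, hc, x₀, fun x hx d hd hdx a z hz => ?_⟩
  obtain ⟨⟨n, h1, h2, h3, h4⟩, ⟨u, h5, h6, h7⟩⟩ := h x hx d hd hdx a z hz
  refine ⟨⟨n, h1, h2, ?_, h4⟩, ⟨u, h5, h6, ?_⟩⟩
  · exact (Int.modEq_iff_dvd.2 h3).symm
  · intro q hq hqa hcon
    have h8 := h7 q hq (Int.modEq_iff_dvd.1 hqa.symm) hcon.1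
    exact absurd hcon.2 (not_le.2 h8)

end Pool.Agent.Results.MP_926cc3_nt.EveryModulus
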