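import Pool.Agent.J4.H80.SH.B

set_option autoImplicit false

/-!
# Early long runs of composite numbers around linear recurring sequences modulo primes

Shanks: the first run of `g` composite numbers should occur at `exp (√g)`. The best bound known for the first
occurrence is `bound C g = exp (C g (log₂ g)² / ((log g)² log₃ g))` (starting library).

Let `p ≥ bound C g` be a prime, `f` a polynomial over the field with `p` elements of degree at most `k`, with distinct
roots `α_i` different from `0`, such that `α_i ^ t ≠ 1` and `α_i ^ t ≠ α_j ^ t` (`i ≠ j`) for `1 ≤ t < p ^ ε`. Let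
`u_1, …, u_r` be linearly independent solutions of the linear recurrence with characteristic polynomial `f` and `w_j`
any residues. For all `T ≥ p ^ ε` at least `T p ^ (-ε)` of the vectors of residues `(u_j(n) + w_j)_j`, `n < T`, are
represented in every box with sides `≥ p ^ (1 - δ)` by vectors of integers which ALL lie in the middle of runs of
`2 g + 1` composite numbers.

For sequences of integers (nondegenerate linear recurrences) this holds for all primes `p ≤ Y` with at most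
`O(Y ^ ε)` exceptions: for example for the powers `a_1 ^ n, …, a_r ^ n` of integers with different absolute values
`≥ 2` and for the consecutive Fibonacci numbers `F_n, F_{n + 1}`.

Proof: Bourgain's bound for exponential sums, proved here (`Pool.Agent.J4.H80.BGR`) for all finite commutative reduced
rings by the sum-product method (Balog, Szemerédi and Gowers; growth in finite fields; bounded generation of the ring
from its residue fields), and the covering sieve of the starting library (`Pool.Agent.N825.FC`).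
-/

namespace Pool.Agent.Results.MP_926cc3_nt.LinearRecurrencesModuloPrimes

open Finset Polynomial

/-- `exp (C g (log log g)² / ((log g)² log log log g))`. -/
noncomputable def bound (C : ℝ) (g : ℕ) : ℝ :=
  Real.exp (C * g * (Real.log (Real.log g)) ^ 2 / ((Real.log g) ^ 2 * Real.log (Real.log (Real.log g))))

/-- In all boxes `∏ (M_j, M_j + L]` with `M_j ≥ 2 p ^ ε` and `p ^ (1 - δ) ≤ L ≤ p` at least `T p ^ (-ε)` of the vectors
`v n`, `n < T`, modulo `p` are represented by vectors of integers which all are at distance more than `g` from all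
primes. -/
def Runs (ε δ : ℝ) (g p T : ℕ) {r : ℕ} (v : ℕ → Fin r → ZMod p) : Prop :=
  ∀ (M : Fin r → ℕ) (L : ℕ), (∀ j, 2 * (p : ℝ) ^ ε ≤ M j) → (p : ℝ) ^ (1 - δ) ≤ L → L ≤ p →
    ∃ S ⊆ range T, T * (p : ℝ) ^ (-ε) ≤ S.card ∧ ∀ n ∈ S, ∀ j, ∃ a : ℕ, M j < a ∧ a ≤ M j + L ∧
      (a : ZMod p) = v n j ∧ ∀ q : ℕ, q.Prime → (g : ℝ) < |(q : ℝ) - a|

/-- The sequence `u` satisfies the linear recurrence with the characteristic polynomial `f`. -/
def Recurrence {R : Type} [CommRing R] (f : R[X]) (u : ℕ → R) : Prop :=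
  ∀ n, ∑ i ∈ range (f.natDegree + 1), f.coeff i * u (n + i) = 0

/-- `f` is monic and squarefree, `f(0) ≠ 0`, and for `1 ≤ t < p ^ ε` it is coprime to `X ^ t - 1` and does not divide
`g(X ^ t)` for any nonzero `g` of smaller degree (in terms of the roots `α_i` in an algebraic closure: they are distinct
and not zero, `α_i ^ t ≠ 1`, and the `α_i ^ t` are distinct). -/
structure Generic (ε : ℝ) (p : ℕ) [Fact p.Prime] (f : (ZMod p)[X]) : Prop where
  monic : f.Monic
  sqf : Squarefree f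
  coeff_ne : f.coeff 0 ≠ 0
  coprime : ∀ t : ℕ, 1 ≤ t → (t : ℝ) < (p : ℝ) ^ ε → IsCoprime f (X ^ t - 1)
  gen : ∀ t : ℕ, 1 ≤ t → (t : ℝ) < (p : ℝ) ^ ε → ∀ g : (ZMod p)[X], g ≠ 0 → g.natDegree < f.natDegree →
    ¬ f ∣ g.comp (X ^ t)

/-- `f` is monic of positive degree, its complex roots are simple, different from zero and not roots of unity, and the
quotients of different roots are not roots of unity. -/
structure Nondegenerate (f : ℤ[X]) : Prop where
  monic : f.Monic
  pos : 1 ≤ f.natDegree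
  sep : (f.map (Int.castRingHom ℂ)).Separable
  ne_zero : ∀ z : ℂ, aeval z f = 0 → z ≠ 0
  pow_ne_one : ∀ z : ℂ, aeval z f = 0 → ∀ t : ℕ, 1 ≤ t → z ^ t ≠ 1
  pow_ne : ∀ z w : ℂ, aeval z f = 0 → aeval w f = 0 → z ≠ w → ∀ t : ℕ, 1 ≤ t → z ^ t ≠ w ^ t

/-- For all `Y ≥ 1` at most `c Y ^ ε` primes `p ≤ Y` do not have the property `A`. -/
def AlmostAllPrimes (ε : ℝ) (A : ∀ p : ℕ, Fact p.Prime → Prop) : Prop :=
  ∃ c : ℝ, ∀ Y : ℕ, 1 ≤ Y → ∀ Q : Finset ℕ,
    (∀ p ∈ Q, p.Prime ∧ p ≤ Y ∧ ∀ h : Fact p.Prime, ¬ A p h) → (Q.card : ℝ) ≤ c * (Y : ℝ) ^ ε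

/-- For all `g ≥ G` with `bound C g ≤ p`, all translates of the sequence `v` of vectors modulo `p` and all `T ≥ p ^ ε`
many of the vectors have representatives in all boxes which all are in the middle of runs of composite numbers. -/
def EarlyRuns (C ε δ : ℝ) (G p : ℕ) {r : ℕ} (v : ℕ → Fin r → ZMod p) : Prop :=
  ∀ g : ℕ, G ≤ g → bound C g ≤ p → ∀ (w : Fin r → ZMod p) (T : ℕ), (p : ℝ) ^ ε ≤ T →
    Runs ε δ g p T (fun n j => v n j + w j)

/-- **Early long runs of composite numbers around linear recurring sequences modulo primes.** -/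
theorem result (ε : ℝ) (hε : 0 < ε) (hε1 : ε ≤ 1) :
    -- (1) linear recurrences modulo `p`
    (∀ k r : ℕ, 1 ≤ r → ∃ C : ℝ, 0 < C ∧ ∃ δ : ℝ, 0 < δ ∧ ∃ G : ℕ, ∀ (p : ℕ) [Fact p.Prime],
      ∀ f : (ZMod p)[X], Generic ε p f → f.natDegree ≤ k → ∀ u : Fin r → ℕ → ZMod p, (∀ j, Recurrence f (u j)) →
      LinearIndependent (ZMod p) u → EarlyRuns C ε δ G p (fun n j => u j n)) ∧
    -- (2) linear recurrences over the integers and almost all primes
    (∀ (f : ℤ[X]) (r : ℕ) (u : Fin r → ℕ → ℤ), Nondegenerate f → 1 ≤ r → (∀ j, Recurrence f (u j)) →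
      LinearIndependent ℤ u → ∃ C : ℝ, 0 < C ∧ ∃ δ : ℝ, 0 < δ ∧ ∃ G : ℕ,
      AlmostAllPrimes ε (fun p _ => EarlyRuns C ε δ G p (fun n j => ((u j n : ℤ) : ZMod p)))) ∧
    -- (3) powers of fixed integers
    (∀ (r : ℕ) (a : Fin r → ℤ), 1 ≤ r → (∀ i, 2 ≤ |a i|) → (∀ i j, i ≠ j → |a i| ≠ |a j|) →
      ∃ C : ℝ, 0 < C ∧ ∃ δ : ℝ, 0 < δ ∧ ∃ G : ℕ,
      AlmostAllPrimes ε (fun p _ => EarlyRuns C ε δ G p (fun n j => (a j : ZMod p) ^ n))) ∧
    -- (4) consecutive Fibonacci numbers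
    (∃ C : ℝ, 0 < C ∧ ∃ δ : ℝ, 0 < δ ∧ ∃ G : ℕ,
      AlmostAllPrimes ε (fun p _ => EarlyRuns C ε δ G p (fun n (j : Fin 2) => (Nat.fib (n + j) : ZMod p)))) := by
  refine ⟨?_, ?_, ?_, ?_⟩
  · intro k r hr
    obtain ⟨C, hC, δ, hδ, G, h⟩ := Pool.Agent.J4.H80.SH.shanks1 k r hr ε hε hε1
    refine ⟨C, hC, δ, hδ, G, ?_⟩
    intro p _ f hf hk u hu hi g hg hp w T hT
    exact h g hg p hp f ⟨hf.monic, hf.sqf, hf.coeff_ne, hf.coprime, hf.gen⟩ hk u hu hi w T hT
  · intro f r u hf hr hu hi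
    obtain ⟨C, hC, δ, hδ, G, c, h⟩ := Pool.Agent.J4.H80.SH.shanks2 f
      ⟨hf.monic, hf.pos, hf.sep, hf.ne_zero, hf.pow_ne_one, hf.pow_ne⟩ r hr u hu hi ε hε hε1
    exact ⟨C, hC, δ, hδ, G, c, h⟩
  · intro r a hr ha hab
    obtain ⟨C, hC, δ, hδ, G, c, h⟩ := Pool.Agent.J4.H80.SH.powers r hr a ha hab ε hε hε1
    exact ⟨C, hC, δ, hδ, G, c, h⟩
  · obtain ⟨C, hC, δ, hδ, G, c, h⟩ := Pool.Agent.J4.H80.SH.fibonacci ε hε hε1
    exact ⟨C, hC, δ, hδ, G, c, h⟩

end Pool.Agent.Results.MP_926cc3_nt.LinearRecurrencesModuloPrimes
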