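import Pool.Agent.J4.H35.PPg
import Pool.Agent.TH915.PW.Scaled

/-!
# Record gaps between primes around `α p ^ c + β`, `p` prime, uniformly in `α` and `β`, for all real exponents `c` which are
not natural numbers

Method: exponential sums over primes with the phase `ξ p ^ c`, uniformly in `ξ` (the identity of Vaughan and van der Corput
differencing, `Pool.Agent.J4.H35.PPa` to `PPg`), and the covering criterion of the starting files
(`Pool.Agent.TH915.PW.crit_scaled`).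
-/

set_option autoImplicit false

namespace Pool.Agent.Results.MP_926cc3_nt.MovingPowersOfPrimes

open Finset Filter
open Pool.Agent.H469R2.NK (e norm_e e_add)

/-- The primes in `(N₁, N₂]`. -/
def primesIn (N₁ N₂ : ℕ) : Finset ℕ := (Ioc N₁ N₂).filter Nat.Prime

/-- No prime is at distance at most
`κ log N (log log N) ^ 2 (log log log log N) / (log log log N) ^ 2` from `y`. -/
def RecordGap (κ : ℝ) (N : ℕ) (y : ℝ) : Prop :=
  ∀ q : ℕ, q.Prime → κ * (Real.log N * (Real.log (Real.log N)) ^ 2 * Real.log (Real.log (Real.log (Real.log N))) /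
    (Real.log (Real.log (Real.log N))) ^ 2) < |(q : ℝ) - y|

/-- **Record gaps around `α p ^ c + β`.** Let `c` be a real number which is not one of `0, 1, 2, ...` (it may be negative), let
`ε > 0` and `K` be real. There are `κ > 0` and `σ > 0` such that for all sufficiently large `N`, for ALL real `α > 0` with
`N ^ ε ≤ α N ^ c ≤ N ^ K`, ALL real `β` and all subintervals `(N₁, N₂]` of `[N, 2 N]` which contain at least `N ^ (1 - σ)`
primes and for whose primes `p` one has `α p ^ c + β ≥ N ^ ε`: for at least `N ^ (- ε)` times the number of the primes in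
`(N₁, N₂]` of these primes `p` there is no prime at distance at most
`κ log N (log log N) ^ 2 (log log log log N) / (log log log N) ^ 2` from `α p ^ c + β`. -/
theorem result (c : ℝ) (hc : ∀ m : ℕ, c ≠ m) (ε K : ℝ) (hε : 0 < ε) :
    ∃ κ σ : ℝ, 0 < κ ∧ 0 < σ ∧ ∃ N₀ : ℕ, ∀ N : ℕ, N₀ ≤ N → ∀ α : ℝ, 0 < α →
      (N : ℝ) ^ ε ≤ α * (N : ℝ) ^ c → α * (N : ℝ) ^ c ≤ (N : ℝ) ^ K → ∀ (β : ℝ) (N₁ N₂ : ℕ), N ≤ N₁ → N₂ ≤ 2 * N →
      (N : ℝ) ^ (1 - σ) ≤ (primesIn N₁ N₂).card → (∀ p ∈ primesIn N₁ N₂, (N : ℝ) ^ ε ≤ α * (p : ℝ) ^ c + β) →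
      (N : ℝ) ^ (-ε) * (primesIn N₁ N₂).card ≤
        {p : ℕ | p ∈ primesIn N₁ N₂ ∧ RecordGap κ N (α * (p : ℝ) ^ c + β)}.ncard := by
  classical
  obtain ⟨σ₀, hσ₀, hσ₀1, N₁', h1⟩ := Pool.Agent.J4.H35.PP.prime_sum hc (ε / 2) (K + 4) (by linarith)
  obtain ⟨η, hη⟩ : ∃ η, η = min (ε / 16) (σ₀ / 16) := ⟨_, rfl⟩
  have hη0 : 0 < η := by rw [hη]; exact lt_min (by linarith) (by linarith)
  have hη1 : η ≤ ε / 16 := by rw [hη]; exact min_le_left _ _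
  have hη2 : η ≤ σ₀ / 16 := by rw [hη]; exact min_le_right _ _
  obtain ⟨κ, hκ, h2⟩ := Pool.Agent.TH915.PW.crit_scaled η hη0 (by linarith)
  obtain ⟨X₀, hX₀⟩ := eventually_atTop.mp h2
  have hev : ∀ᶠ x : ℝ in atTop, X₀ ≤ x ∧ 4 ≤ x ^ (4 * η) ∧ 4 ≤ x ^ (ε / 4) ∧ 1 ≤ x ∧ 4 ≤ x ^ (σ₀ / 8) := by
    filter_upwards [eventually_ge_atTop X₀, (tendsto_rpow_atTop (by linarith : 0 < 4 * η)).eventually_ge_atTop 4,
      (tendsto_rpow_atTop (by linarith : 0 < ε / 4)).eventually_ge_atTop 4, eventually_ge_atTop (1 : ℝ),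
      (tendsto_rpow_atTop (by linarith : 0 < σ₀ / 8)).eventually_ge_atTop 4] with x g1 g2 g3 g4 g5
    exact ⟨g1, g2, g3, g4, g5⟩
  obtain ⟨N₃, hN₃⟩ := eventually_atTop.mp ((tendsto_natCast_atTop_atTop (R := ℝ)).eventually hev)
  refine ⟨κ, σ₀ / 4, hκ, by linarith, N₁' + N₃, fun N hN α hα hα1 hα2 β A B hA hB hcard hpos => ?_⟩
  obtain ⟨g1, g2, g3, g4, g5⟩ := hN₃ N (by omega)
  have hN0 : (0 : ℝ) < N := by linarith
  obtain ⟨s, hs⟩ : ∃ s, s = primesIn A B := ⟨_, rfl⟩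
  rw [← hs] at hcard hpos ⊢
  obtain ⟨G, hG⟩ : ∃ G : Finset ℕ, G = s.filter (fun p : ℕ => RecordGap κ N (α * (p : ℝ) ^ c + β)) := ⟨_, rfl⟩
  have hGc : {p : ℕ | p ∈ s ∧ RecordGap κ N (α * (p : ℝ) ^ c + β)}.ncard = G.card := by
    rw [← Set.ncard_coe_finset, hG]
    congr 1
    ext p
    simp
  rw [hGc]
  by_contra hcon
  rw [not_le] at hcon
  have hs0 : (0 : ℝ) < s.card := lt_of_lt_of_le (by positivity) hcard
  have hGs : G ⊆ s := by rw [hG]; exact filter_subset _ _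
  -- the remaining primes
  obtain ⟨t, ht⟩ : ∃ t, t = s \ G := ⟨_, rfl⟩
  have htc : (t.card : ℝ) = s.card - G.card := by
    rw [ht, card_sdiff_of_subset hGs, Nat.cast_sub (card_le_card hGs)]
  have hNε : (N : ℝ) ^ (-ε) ≤ (N : ℝ) ^ (-(8 * η)) * (1 / 4) := by
    have e1 : (N : ℝ) ^ (-ε) * (N : ℝ) ^ (ε / 4) ≤ (N : ℝ) ^ (-(8 * η)) := by
      rw [← Real.rpow_add hN0]
      apply Real.rpow_le_rpow_of_exponent_le g4
      linarith
    have e2 : 0 < (N : ℝ) ^ (-ε) := by positivity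
    nlinarith
  have hp8 : (N : ℝ) ^ (-(8 * η)) ≤ (N : ℝ) ^ (-(4 * η)) := Real.rpow_le_rpow_of_exponent_le g4 (by linarith)
  have hp4 : (N : ℝ) ^ (-(4 * η)) ≤ 1 / 4 := by
    rw [Real.rpow_neg hN0.le, ← one_div]
    exact one_div_le_one_div_of_le (by norm_num) g2
  have hP8 : 0 < (N : ℝ) ^ (-(8 * η)) := by positivity
  have hP4 : 0 < (N : ℝ) ^ (-(4 * η)) := by positivity
  have hGsm : (G.card : ℝ) ≤ s.card * ((N : ℝ) ^ (-(4 * η)) * (1 / 4)) := by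
    calc (G.card : ℝ) ≤ (N : ℝ) ^ (-ε) * s.card := hcon.le
      _ ≤ ((N : ℝ) ^ (-(8 * η)) * (1 / 4)) * s.card := mul_le_mul_of_nonneg_right hNε hs0.le
      _ ≤ ((N : ℝ) ^ (-(4 * η)) * (1 / 4)) * s.card := by gcongr
      _ = _ := by ring
  have htl : (s.card : ℝ) / 2 ≤ t.card := by
    rw [htc]
    have : s.card * ((N : ℝ) ^ (-(4 * η)) * (1 / 4)) ≤ s.card * ((1 / 4) * (1 / 4)) := by gcongr
    linarith
  have htne : t.Nonempty := by
    rw [← card_pos]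
    have : (0 : ℝ) < t.card := by linarith
    exact_mod_cast this
  obtain ⟨p, hp, hgap⟩ := hX₀ N g1 ℕ t (fun p => α * (p : ℝ) ^ c + β) htne (fun p hp => by
      have hps : p ∈ s := by
        rw [ht] at hp
        exact (Finset.mem_sdiff.1 hp).1
      refine le_trans ?_ (hpos p hps)
      exact Real.rpow_le_rpow_of_exponent_le g4 (by linarith)) (by
    intro q h hq hqX hh hhX
    have hqr : (1 : ℝ) ≤ q := by exact_mod_cast hq
    have hhr : (1 : ℝ) ≤ h := by exact_mod_cast hh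
    have hq0 : (0 : ℝ) < q := by linarith
    obtain ⟨ξ, hξ⟩ : ∃ ξ : ℝ, ξ = (h : ℝ) / q * α := ⟨_, rfl⟩
    have hξ0 : 0 < ξ := by rw [hξ]; positivity
    have hξ1 : (N : ℝ) ^ (ε / 2) ≤ ξ * (N : ℝ) ^ c := by
      have e1 : 1 / (N : ℝ) ^ η ≤ (h : ℝ) / q := by
        rw [div_le_div_iff₀ (by positivity) hq0]
        calc 1 * (q : ℝ) = q := one_mul _
          _ ≤ (N : ℝ) ^ η := hqX
          _ = 1 * (N : ℝ) ^ η := (one_mul _).symm
          _ ≤ h * (N : ℝ) ^ η := by gcongr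
      calc (N : ℝ) ^ (ε / 2) ≤ (N : ℝ) ^ (-η + ε) := Real.rpow_le_rpow_of_exponent_le g4 (by linarith)
        _ = 1 / (N : ℝ) ^ η * (N : ℝ) ^ ε := by
            rw [Real.rpow_add hN0, Real.rpow_neg hN0.le, one_div]
        _ ≤ (h : ℝ) / q * (α * (N : ℝ) ^ c) := mul_le_mul e1 hα1 (by positivity) (by positivity)
        _ = ξ * (N : ℝ) ^ c := by rw [hξ]; ring
    have hξ2 : ξ * (N : ℝ) ^ c ≤ (N : ℝ) ^ (K + 4) := by
      have e1 : (h : ℝ) / q ≤ (N : ℝ) ^ (4 * η) := (div_le_self (by linarith) hqr).trans hhX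
      calc ξ * (N : ℝ) ^ c = (h : ℝ) / q * (α * (N : ℝ) ^ c) := by rw [hξ]; ring
        _ ≤ (N : ℝ) ^ (4 * η) * (N : ℝ) ^ K := mul_le_mul e1 hα2 (by positivity) (by positivity)
        _ = (N : ℝ) ^ (4 * η + K) := (Real.rpow_add hN0 _ _).symm
        _ ≤ _ := Real.rpow_le_rpow_of_exponent_le g4 (by linarith)
    have h3 := h1 N A B (by omega) hA hB ξ hξ0 hξ1 hξ2
    have e2 : ∀ p : ℕ, e ((h : ℝ) / q * (α * (p : ℝ) ^ c + β)) = e ((h : ℝ) / q * β) * e (ξ * (p : ℝ) ^ c) := by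
      intro p
      rw [← e_add, hξ]
      congr 1
      ring
    have e3 : ‖∑ p ∈ s, e ((h : ℝ) / q * (α * (p : ℝ) ^ c + β))‖ ≤ (N : ℝ) ^ (1 - σ₀) := by
      simp only [e2]
      rw [← mul_sum, norm_mul, norm_e, one_mul, hs]
      exact h3
    have e4 : ∑ p ∈ t, e ((h : ℝ) / q * (α * (p : ℝ) ^ c + β)) =
        ∑ p ∈ s, e ((h : ℝ) / q * (α * (p : ℝ) ^ c + β)) - ∑ p ∈ G, e ((h : ℝ) / q * (α * (p : ℝ) ^ c + β)) := by
      rw [ht, ← sum_sdiff hGs]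
      ring
    have e5 : ‖∑ p ∈ G, e ((h : ℝ) / q * (α * (p : ℝ) ^ c + β))‖ ≤ G.card := by
      refine (norm_sum_le _ _).trans ?_
      simp only [norm_e, sum_const, nsmul_eq_mul, mul_one]
      exact le_refl _
    have e6 : (N : ℝ) ^ (1 - σ₀) ≤ s.card * ((N : ℝ) ^ (-(4 * η)) * (1 / 4)) := by
      have e7 : (N : ℝ) ^ (1 - σ₀) * 4 ≤ (N : ℝ) ^ (1 - σ₀ / 4) * (N : ℝ) ^ (-(4 * η)) := by
        calc (N : ℝ) ^ (1 - σ₀) * 4 ≤ (N : ℝ) ^ (1 - σ₀) * (N : ℝ) ^ (σ₀ / 8) := by gcongr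
          _ = (N : ℝ) ^ (1 - σ₀ + σ₀ / 8) := (Real.rpow_add hN0 _ _).symm
          _ ≤ (N : ℝ) ^ (1 - σ₀ / 4 + -(4 * η)) := Real.rpow_le_rpow_of_exponent_le g4 (by linarith)
          _ = _ := Real.rpow_add hN0 _ _
      have e8 : (N : ℝ) ^ (1 - σ₀ / 4) * (N : ℝ) ^ (-(4 * η)) ≤ s.card * (N : ℝ) ^ (-(4 * η)) :=
        mul_le_mul_of_nonneg_right hcard hP4.le
      linarith
    rw [e4]
    refine (norm_sub_le _ _).trans ?_
    calc ‖∑ p ∈ s, e ((h : ℝ) / q * (α * (p : ℝ) ^ c + β))‖ + ‖∑ p ∈ G, e ((h : ℝ) / q * (α * (p : ℝ) ^ c + β))‖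
        ≤ s.card * ((N : ℝ) ^ (-(4 * η)) * (1 / 4)) + s.card * ((N : ℝ) ^ (-(4 * η)) * (1 / 4)) :=
          add_le_add (e3.trans e6) (e5.trans hGsm)
      _ = (s.card : ℝ) / 2 * (N : ℝ) ^ (-(4 * η)) := by ring
      _ ≤ t.card * (N : ℝ) ^ (-(4 * η)) := mul_le_mul_of_nonneg_right htl hP4.le)
  rw [ht, Finset.mem_sdiff] at hp
  apply hp.2
  rw [hG, mem_filter]
  exact ⟨hp.1, hgap⟩

end Pool.Agent.Results.MP_926cc3_nt.MovingPowersOfPrimes
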