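import Pool.Agent.J4.H53.PM.Fin
import Pool.Agent.J4.H53.PM.Ex
import Pool.Agent.J4.H53.PM.Sharp

set_option autoImplicit false

/-!
# Early long runs of composite numbers around products of matrices from arbitrary sets

Shanks: the first run of `g` composite numbers should occur at `exp (√g)`. The best bound known for the first
occurrence is `bound C g = exp (C g (log₂ g)² / ((log g)² log₃ g))` (starting library).

Let `p ≥ bound C g` be a prime and let `X` be the set of all `n × n` matrices over the field with `p` elements or the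
set of all matrices of determinant one. Let `A_0, …, A_(k + 1)` be ARBITRARY subsets of `X` with
`|A_0| |A_1| ≥ |X|² p ^ (-n + ε)` and `|A_j| ≥ |X| p ^ (-n + ε)` for `j ≥ 2`. For at least `∏ |A_j| p ^ (-ε)` of the
families `(a_j)` in `∏ A_j`, all entries of all the partial products `a_0 a_1`, `a_0 a_1 a_2`, …, `a_0 a_1 ⋯ a_(k + 1)`
are represented in a given box with sides `≥ p ^ (1 - δ)` by integers which ALL lie in the middle of runs of `2 g + 1`
composite numbers; the same for the values of `m` independent linear forms in these entries, plus constants.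

The hypothesis on `|A_0| |A_1|` is sharp already for one entry of the product of two matrices of determinant one:
there are sets `A, B` with `|A| |B| ≥ |X|² p ^ (-n) / 4` such that the entry `(i, i)` of `a b` is `0` for all `a ∈ A`,
`b ∈ B`, and `0` has no representative in the box `(p, 2 p)`.

Proof: the sum of `e(tr(h_1 a_0 a_1) + tr(h_2 a_0 a_1 a_2) + ⋯)` over `a_0` and `a_1` is a bilinear form with the
matrix `h_1 + a_2 h_2 + ⋯`. If it is not zero, the sum is small (Cauchy and Schwarz for the smaller of the two sets and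
completion of the larger one to `X`; every nonzero map `x ↦ M x` takes each value at most `2 |X| p ^ (-n)` times on `X`,
and the Fourier coefficients of `X` are at most `2 |X| p ^ (-n/2)`: transvections). This matrix is zero for few families
only, by induction. The covering sieve is that of the starting library (`Pool.Agent.N825.FC`).
-/

namespace Pool.Agent.Results.MP_926cc3_nt.ProductsOfMatrixSets

open Finset

/-- `exp (C g (log log g)² / ((log g)² log log log g))`. -/
noncomputable def bound (C : ℝ) (g : ℕ) : ℝ :=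
  Real.exp (C * g * (Real.log (Real.log g)) ^ 2 / ((Real.log g) ^ 2 * Real.log (Real.log (Real.log g))))

/-- In all boxes `∏ (M_j, M_j + L]` with `M_j ≥ 2 p ^ ε` and `p ^ (1 - δ) ≤ L ≤ p` at least `|s| p ^ (-ε)` of the
vectors `v i`, `i ∈ s`, modulo `p` are represented by vectors of integers which all are at distance more than `g` from
all primes. -/
def Runs (ε δ : ℝ) (g p : ℕ) {ι : Type} (s : Finset ι) {m : ℕ} (v : ι → Fin m → ZMod p) : Prop :=
  ∀ (M : Fin m → ℕ) (L : ℕ), (∀ j, 2 * (p : ℝ) ^ ε ≤ M j) → (p : ℝ) ^ (1 - δ) ≤ L → L ≤ p →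
    ∃ S ⊆ s, s.card * (p : ℝ) ^ (-ε) ≤ S.card ∧ ∀ i ∈ S, ∀ j, ∃ a : ℕ, M j < a ∧ a ≤ M j + L ∧
      (a : ZMod p) = v i j ∧ ∀ q : ℕ, q.Prime → (g : ℝ) < |(q : ℝ) - a|

/-- The matrices of size `n` over the field with `p` elements. -/
abbrev Mat (n p : ℕ) : Type := Matrix (Fin n) (Fin n) (ZMod p)

/-- The set of all matrices of determinant one. -/
def SL (n p : ℕ) [Fact p.Prime] : Finset (Mat n p) := univ.filter (fun x => x.det = 1)

/-- The partial products `a_0 a_1`, `a_0 a_1 a_2`, …, `a_0 a_1 ⋯ a_(k + 1)` of a family of `k + 2` matrices. -/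
def partialProducts {n p k : ℕ} [Fact p.Prime] (a : Fin (k + 2) → Mat n p) (j : Fin (k + 1)) : Mat n p :=
  ((List.ofFn a).take (j + 2)).prod

/-- The `A_j` are subsets of `X`, `|A_0| |A_1| ≥ |X|² p ^ (-n + ε)` and `|A_j| ≥ |X| p ^ (-n + ε)` for `j ≥ 2`. -/
structure Large (ε : ℝ) {n p k : ℕ} (X : Finset (Mat n p)) (A : Fin (k + 2) → Finset (Mat n p)) : Prop where
  sub : ∀ j, A j ⊆ X
  two : (X.card : ℝ) ^ 2 * (p : ℝ) ^ (-(n : ℝ) + ε) ≤ (A 0).card * (A 1).card
  one : ∀ j : Fin k, (X.card : ℝ) * (p : ℝ) ^ (-(n : ℝ) + ε) ≤ (A j.succ.succ).card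

/-- For all `g ≥ G` with `bound C g ≤ p`, all large families `A_0, …, A_(k + 1)` of subsets of `X` and all surjective
affine maps from the partial products to `m`-dimensional space, many of the vectors of values have representatives in
all boxes which all are in the middle of runs of composite numbers. -/
def EarlyRuns (C ε δ : ℝ) (G k m n p : ℕ) [Fact p.Prime] (X : Finset (Mat n p)) : Prop :=
  ∀ g : ℕ, G ≤ g → bound C g ≤ p → ∀ A : Fin (k + 2) → Finset (Mat n p), Large ε X A →
    ∀ (T : (Fin (k + 1) → Mat n p) →ₗ[ZMod p] (Fin m → ZMod p)) (c : Fin m → ZMod p), Function.Surjective T →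
      Runs ε δ g p (Fintype.piFinset A) (fun a => T (partialProducts a) + c)

lemma spread_univ (n p : ℕ) [Fact p.Prime] : Pool.Agent.J4.H53.PM.Spread 2 (univ : Finset (Mat n p)) := by
  have h := Pool.Agent.J4.H53.PM.spread_Mn n p
  have h0 : (1 : ℝ) * (Pool.Agent.J4.H53.PM.Mn n p).card ≤ 2 * ((univ : Finset (Mat n p)).card : ℝ) :=
    mul_le_mul_of_nonneg_right one_le_two (Nat.cast_nonneg _)
  exact ⟨one_le_two, fun M hM c => (h.left M hM c).trans h0, fun M hM c => (h.right M hM c).trans h0,
    fun N hN => (h.four N hN).trans h0⟩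

/-- **Early long runs of composite numbers around products of matrices from arbitrary sets.** -/
theorem result :
    -- (1) partial products of matrices from large sets of matrices (of determinant one)
    (∀ ε : ℝ, 0 < ε → ε ≤ 1 → ∀ n k m : ℕ, 2 ≤ n → 1 ≤ m →
      ∃ C : ℝ, 0 < C ∧ ∃ δ : ℝ, 0 < δ ∧ ∃ G : ℕ, ∀ (p : ℕ) [Fact p.Prime],
        EarlyRuns C ε δ G k m n p (SL n p) ∧ EarlyRuns C ε δ G k m n p univ) ∧
    -- (2) the condition on the cardinalities of the first two sets is sharp
    (∀ (n p : ℕ) [Fact p.Prime], 2 ≤ n → ∀ i : Fin n, ∃ A ⊆ SL n p, ∃ B ⊆ SL n p,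
      ((SL n p).card : ℝ) ^ 2 * (p : ℝ) ^ (-(n : ℝ)) ≤ 4 * (A.card * B.card) ∧
      ∀ a ∈ A, ∀ b ∈ B, (a * b) i i = 0) := by
  refine ⟨?_, ?_⟩
  · intro ε hε hε1 n k m hn hm
    obtain ⟨C, hC, δ, hδ, G, h⟩ := Pool.Agent.J4.H53.PM.early n k m hm 2 (by norm_num) ε hε hε1
    refine ⟨C, hC, δ, hδ, G, ?_⟩
    intro p _
    refine ⟨?_, ?_⟩
    · intro g hg hp A hA T c hT
      refine h g hg p hp (Pool.Agent.J4.H53.PM.SLn n p) ?_ (Pool.Agent.J4.H53.PM.spread_SLn hn) A hA.sub hA.two
        hA.one T c hT
      exact ⟨1, by rw [Pool.Agent.J4.H53.PM.mem_SLn]; exact Matrix.det_one⟩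
    · intro g hg hp A hA T c hT
      exact h g hg p hp univ univ_nonempty
        (spread_univ n p) A hA.sub hA.two hA.one T c hT
  · intro n p _ hn i
    obtain ⟨A, B, hA, hB, h1, h2⟩ := Pool.Agent.J4.H53.PM.sharp (p := p) hn i
    refine ⟨A, hA, B, hB, ?_, h2⟩
    have hp0 : (0 : ℝ) < p := by exact_mod_cast (Fact.out : p.Prime).pos
    rw [Real.rpow_neg hp0.le, Real.rpow_natCast, ← div_eq_mul_inv, div_le_iff₀ (by positivity)]
    refine le_trans h1 (le_of_eq ?_)
    ring

end Pool.Agent.Results.MP_926cc3_nt.ProductsOfMatrixSets
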